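import Mathlib

/-! # quadruples with a given difference of sums of two k-th powers -/

set_option autoImplicit false

open Finset

namespace Pool.Agent.Helper34K9.HM

/-- quadruples `(x, y, z, w)` in `[1, N]` with `x + y = z + w` -/
def Quad (N : ℕ) : Finset ((ℕ × ℕ) × (ℕ × ℕ)) :=
  (((Icc 1 N) ×ˢ (Icc 1 N)) ×ˢ ((Icc 1 N) ×ˢ (Icc 1 N))).filter (fun p => p.1.1 + p.1.2 = p.2.1 + p.2.2)

/-- `x^k + y^k - z^k - w^k` -/
def lm (k : ℕ) (p : (ℕ × ℕ) × (ℕ × ℕ)) : ℤ :=
  (p.1.1 : ℤ) ^ k + (p.1.2 : ℤ) ^ k - (p.2.1 : ℤ) ^ k - (p.2.2 : ℤ) ^ k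

open Polynomial in
noncomputable def pol (k : ℕ) (u v l : ℤ) : Polynomial ℤ :=
  X ^ k + (X - C (u + v)) ^ k - (X - C u) ^ k - (X - C v) ^ k - C l

open Polynomial in
theorem pol_coeff (k : ℕ) (hk : 3 ≤ k) (u v l : ℤ) : (pol k u v l).coeff (k - 2) = 2 * u * v * (k.choose (k - 2) : ℤ) := by
  unfold pol
  have h1 : k - 2 ≠ 0 := by omega
  have h2 : k - (k - 2) = 2 := by omega
  have h3 : k - 2 ≠ k := by omega
  have h4 : ∀ a : ℤ, ((X - C a) ^ k : Polynomial ℤ).coeff (k - 2) = a ^ 2 * (k.choose (k - 2) : ℤ) := by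
    intro a
    have h5 : (X - C a : Polynomial ℤ) = X + C (-a) := by rw [C_neg]; ring
    rw [h5, coeff_X_add_C_pow, h2]
    ring
  rw [coeff_sub, coeff_sub, coeff_sub, coeff_add, coeff_C, if_neg h1, coeff_X_pow, if_neg h3, h4, h4, h4]
  ring

open Polynomial in
theorem pol_ne (k : ℕ) (hk : 3 ≤ k) (u v l : ℤ) (hu : u ≠ 0) (hv : v ≠ 0) : pol k u v l ≠ 0 := by
  intro h
  have h1 := pol_coeff k hk u v l
  rw [h, coeff_zero] at h1
  have h2 : (k.choose (k - 2) : ℤ) ≠ 0 := by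
    have : 0 < k.choose (k - 2) := Nat.choose_pos (by omega)
    exact_mod_cast this.ne'
  have h3 : 2 * u * v * (k.choose (k - 2) : ℤ) ≠ 0 :=
    mul_ne_zero (mul_ne_zero (mul_ne_zero two_ne_zero hu) hv) h2
  exact h3 h1.symm

open Polynomial in
theorem pol_deg (k : ℕ) (u v l : ℤ) : (pol k u v l).natDegree ≤ k := by
  unfold pol
  have h : ∀ a : ℤ, ((X - C a) ^ k : Polynomial ℤ).natDegree ≤ k := by
    intro a
    refine natDegree_pow_le.trans ?_
    rw [natDegree_X_sub_C, mul_one]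
  have h1 : (X ^ k : Polynomial ℤ).natDegree ≤ k := natDegree_X_pow_le k
  have h2 : (C l : Polynomial ℤ).natDegree ≤ k := by rw [natDegree_C]; exact Nat.zero_le _
  have h3 := natDegree_sub_le_of_le (natDegree_sub_le_of_le (natDegree_sub_le_of_le
    (natDegree_add_le_of_le h1 (h (u + v))) (h u)) (h v)) h2
  simpa using h3

open Polynomial in
theorem pol_eval (k : ℕ) (u v l x : ℤ) :
    (pol k u v l).eval x = x ^ k + (x - (u + v)) ^ k - (x - u) ^ k - (x - v) ^ k - l := by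
  unfold pol
  simp

/-- divisors with sign -/
def Dv (l : ℤ) : Finset ℤ := (l.natAbs.divisors.image (fun d : ℕ => (d : ℤ))) ∪
  (l.natAbs.divisors.image (fun d : ℕ => -(d : ℤ)))

theorem Dv_card (l : ℤ) : (Dv l).card ≤ 2 * l.natAbs.divisors.card := by
  unfold Dv
  refine (Finset.card_union_le _ _).trans ?_
  have h1 := Finset.card_image_le (s := l.natAbs.divisors) (f := fun d : ℕ => (d : ℤ))
  have h2 := Finset.card_image_le (s := l.natAbs.divisors) (f := fun d : ℕ => -(d : ℤ))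
  omega

theorem mem_Dv (l u : ℤ) (hl : l ≠ 0) (hu : u ∣ l) : u ∈ Dv l := by
  unfold Dv
  rw [Finset.mem_union, Finset.mem_image, Finset.mem_image]
  have h1 : u.natAbs ∈ l.natAbs.divisors := by
    rw [Nat.mem_divisors]
    exact ⟨Int.natAbs_dvd_natAbs.mpr hu, by omega⟩
  rcases Int.natAbs_eq u with h | h
  · left
    exact ⟨u.natAbs, h1, h.symm⟩
  · right
    exact ⟨u.natAbs, h1, h.symm⟩

theorem Dv_ne (l u : ℤ) (hu : u ∈ Dv l) : u ≠ 0 := by
  unfold Dv at hu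
  rw [Finset.mem_union, Finset.mem_image, Finset.mem_image] at hu
  rcases hu with ⟨d, hd, rfl⟩ | ⟨d, hd, rfl⟩
  · have := Nat.pos_of_mem_divisors hd
    omega
  · have := Nat.pos_of_mem_divisors hd
    omega

theorem count (k N : ℕ) (hk : 3 ≤ k) (l : ℤ) (hl : l ≠ 0) :
    ((Quad N).filter (fun p => lm k p = l)).card ≤ k * (2 * l.natAbs.divisors.card) ^ 2 := by
  classical
  set f : (ℕ × ℕ) × (ℕ × ℕ) → ℤ × ℤ := fun p => ((p.1.1 : ℤ) - (p.2.1 : ℤ), (p.1.1 : ℤ) - (p.2.2 : ℤ)) with hf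
  have hmem : ∀ p ∈ (Quad N).filter (fun p => lm k p = l), f p ∈ (Dv l) ×ˢ (Dv l) := by
    intro p hp
    rw [Finset.mem_filter] at hp
    obtain ⟨hp1, hp2⟩ := hp
    unfold Quad at hp1
    rw [Finset.mem_filter] at hp1
    have h1 : (p.1.1 : ℤ) + p.1.2 = p.2.1 + p.2.2 := by exact_mod_cast hp1.2
    rw [Finset.mem_product]
    constructor
    · apply mem_Dv l _ hl
      change (p.1.1 : ℤ) - (p.2.1 : ℤ) ∣ l
      rw [← hp2]
      unfold lm
      have a1 : (p.1.1 : ℤ) - (p.2.1 : ℤ) ∣ (p.1.1 : ℤ) ^ k - (p.2.1 : ℤ) ^ k := sub_dvd_pow_sub_pow _ _ _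
      have a2 : (p.2.2 : ℤ) - (p.1.2 : ℤ) ∣ (p.2.2 : ℤ) ^ k - (p.1.2 : ℤ) ^ k := sub_dvd_pow_sub_pow _ _ _
      have a3 : (p.2.2 : ℤ) - (p.1.2 : ℤ) = (p.1.1 : ℤ) - (p.2.1 : ℤ) := by linarith
      rw [a3] at a2
      have a4 : (p.1.1 : ℤ) ^ k + (p.1.2 : ℤ) ^ k - (p.2.1 : ℤ) ^ k - (p.2.2 : ℤ) ^ k =
        ((p.1.1 : ℤ) ^ k - (p.2.1 : ℤ) ^ k) - ((p.2.2 : ℤ) ^ k - (p.1.2 : ℤ) ^ k) := by ring
      rw [a4]
      exact dvd_sub a1 a2
    · apply mem_Dv l _ hl
      change (p.1.1 : ℤ) - (p.2.2 : ℤ) ∣ l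
      rw [← hp2]
      unfold lm
      have a1 : (p.1.1 : ℤ) - (p.2.2 : ℤ) ∣ (p.1.1 : ℤ) ^ k - (p.2.2 : ℤ) ^ k := sub_dvd_pow_sub_pow _ _ _
      have a2 : (p.2.1 : ℤ) - (p.1.2 : ℤ) ∣ (p.2.1 : ℤ) ^ k - (p.1.2 : ℤ) ^ k := sub_dvd_pow_sub_pow _ _ _
      have a3 : (p.2.1 : ℤ) - (p.1.2 : ℤ) = (p.1.1 : ℤ) - (p.2.2 : ℤ) := by linarith
      rw [a3] at a2
      have a4 : (p.1.1 : ℤ) ^ k + (p.1.2 : ℤ) ^ k - (p.2.1 : ℤ) ^ k - (p.2.2 : ℤ) ^ k =
        ((p.1.1 : ℤ) ^ k - (p.2.2 : ℤ) ^ k) - ((p.2.1 : ℤ) ^ k - (p.1.2 : ℤ) ^ k) := by ring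
      rw [a4]
      exact dvd_sub a1 a2
  have hfib : ∀ b ∈ (Dv l) ×ˢ (Dv l), (((Quad N).filter (fun p => lm k p = l)).filter (fun p => f p = b)).card ≤ k := by
    intro b hb
    rw [Finset.mem_product] at hb
    have hu := Dv_ne l b.1 hb.1
    have hv := Dv_ne l b.2 hb.2
    have hne := pol_ne k hk b.1 b.2 l hu hv
    have h1 : (((Quad N).filter (fun p => lm k p = l)).filter (fun p => f p = b)).card ≤
        (pol k b.1 b.2 l).roots.toFinset.card := by
      apply Finset.card_le_card_of_injOn (fun p => (p.1.1 : ℤ))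
      · intro p hp
        rw [Finset.mem_coe, Finset.mem_filter, Finset.mem_filter] at hp
        obtain ⟨⟨hp1, hp2⟩, hp3⟩ := hp
        unfold Quad at hp1
        rw [Finset.mem_filter] at hp1
        have h1 : (p.1.1 : ℤ) + p.1.2 = p.2.1 + p.2.2 := by exact_mod_cast hp1.2
        have e1 : (p.1.1 : ℤ) - (p.2.1 : ℤ) = b.1 := congrArg Prod.fst hp3
        have e2 : (p.1.1 : ℤ) - (p.2.2 : ℤ) = b.2 := congrArg Prod.snd hp3
        rw [Finset.mem_coe, Multiset.mem_toFinset, Polynomial.mem_roots hne, Polynomial.IsRoot.def, pol_eval]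
        have e3 : (p.1.1 : ℤ) - (b.1 + b.2) = p.1.2 := by linarith
        have e4 : (p.1.1 : ℤ) - b.1 = p.2.1 := by linarith
        have e5 : (p.1.1 : ℤ) - b.2 = p.2.2 := by linarith
        rw [e3, e4, e5, ← hp2]
        unfold lm
        ring
      · intro p hp p' hp' hpp
        rw [Finset.mem_coe, Finset.mem_filter, Finset.mem_filter] at hp hp'
        obtain ⟨⟨hp1, hp2⟩, hp3⟩ := hp
        obtain ⟨⟨hp1', hp2'⟩, hp3'⟩ := hp'
        unfold Quad at hp1 hp1'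
        rw [Finset.mem_filter] at hp1 hp1'
        have h1 := hp1.2
        have h1' := hp1'.2
        have e1 : (p.1.1 : ℤ) - (p.2.1 : ℤ) = b.1 := congrArg Prod.fst hp3
        have e2 : (p.1.1 : ℤ) - (p.2.2 : ℤ) = b.2 := congrArg Prod.snd hp3
        have e1' : (p'.1.1 : ℤ) - (p'.2.1 : ℤ) = b.1 := congrArg Prod.fst hp3'
        have e2' : (p'.1.1 : ℤ) - (p'.2.2 : ℤ) = b.2 := congrArg Prod.snd hp3'
        have e0 : (p.1.1 : ℤ) = p'.1.1 := hpp
        ext
        · omega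
        · omega
        · omega
        · omega
    refine h1.trans ((Multiset.toFinset_card_le _).trans ((Polynomial.card_roots' _).trans (pol_deg _ _ _ _)))
  have h := Finset.card_le_mul_card_image_of_maps_to hmem k hfib
  refine h.trans (Nat.mul_le_mul_left _ ?_)
  rw [Finset.card_product, ← sq]
  exact Nat.pow_le_pow_left (Dv_card l) 2

theorem quad_card (N : ℕ) : (Quad N).card ≤ N ^ 3 := by
  have h1 : (Quad N).card ≤ ((Icc 1 N) ×ˢ ((Icc 1 N) ×ˢ (Icc 1 N))).card := by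
    apply Finset.card_le_card_of_injOn (fun p => (p.1.1, (p.2.1, p.2.2)))
    · intro p hp
      unfold Quad at hp
      rw [Finset.mem_coe, Finset.mem_filter, Finset.mem_product, Finset.mem_product, Finset.mem_product] at hp
      rw [Finset.mem_coe, Finset.mem_product, Finset.mem_product]
      exact ⟨hp.1.1.1, hp.1.2.1, hp.1.2.2⟩
    · intro p hp p' hp' hpp
      unfold Quad at hp hp'
      rw [Finset.mem_coe, Finset.mem_filter] at hp hp'
      have h1 := hp.2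
      have h1' := hp'.2
      simp only [Prod.mk.injEq] at hpp
      obtain ⟨e1, e2, e3⟩ := hpp
      ext
      · omega
      · omega
      · omega
      · omega
  refine h1.trans (le_of_eq ?_)
  rw [Finset.card_product, Finset.card_product, Nat.card_Icc, Nat.add_sub_cancel]
  ring

/-- pairs of quadruples with the same nonzero difference -/
theorem pairs (k N D : ℕ) (hk : 3 ≤ k) (hD : ∀ n : ℕ, 1 ≤ n → n ≤ 2 * N ^ k → n.divisors.card ≤ D) :
    ((((Quad N).filter (fun p => lm k p ≠ 0)) ×ˢ ((Quad N).filter (fun p => lm k p ≠ 0))).filter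
      (fun z => lm k z.1 - lm k z.2 = 0)).card ≤ N ^ 3 * (k * (2 * D) ^ 2) := by
  classical
  set S := (Quad N).filter (fun p => lm k p ≠ 0) with hS
  have h1 : ((S ×ˢ S).filter (fun z => lm k z.1 - lm k z.2 = 0)).card = ∑ p ∈ S,
      (S.filter (fun p' => lm k p - lm k p' = 0)).card := by
    rw [Finset.card_filter, Finset.sum_product]
    apply Finset.sum_congr rfl
    intro p _
    rw [Finset.card_filter]
  rw [h1]
  have h2 : ∀ p ∈ S, (S.filter (fun p' => lm k p - lm k p' = 0)).card ≤ k * (2 * D) ^ 2 := by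
    intro p hp
    rw [hS, Finset.mem_filter] at hp
    have h3 : S.filter (fun p' => lm k p - lm k p' = 0) ⊆ (Quad N).filter (fun p' => lm k p' = lm k p) := by
      intro p' hp'
      rw [Finset.mem_filter, hS, Finset.mem_filter] at hp'
      rw [Finset.mem_filter]
      exact ⟨hp'.1.1, by linarith [hp'.2]⟩
    refine (Finset.card_le_card h3).trans ((count k N hk _ hp.2).trans ?_)
    apply Nat.mul_le_mul_left
    apply Nat.pow_le_pow_left
    apply Nat.mul_le_mul_left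
    apply hD
    · have := hp.2
      omega
    · have hq := hp.1
      unfold Quad at hq
      rw [Finset.mem_filter, Finset.mem_product, Finset.mem_product, Finset.mem_product, Finset.mem_Icc,
        Finset.mem_Icc, Finset.mem_Icc, Finset.mem_Icc] at hq
      obtain ⟨⟨⟨⟨_, a1⟩, _, a2⟩, ⟨_, a3⟩, _, a4⟩, _⟩ := hq
      have h : ∀ x : ℕ, x ≤ N → ((x : ℤ)) ^ k ≤ (N : ℤ) ^ k := by
        intro x hx
        exact pow_le_pow_left₀ (by positivity) (by exact_mod_cast hx) k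
      have b1 := h _ a1
      have b2 := h _ a2
      have b3 := h _ a3
      have b4 := h _ a4
      have c1 : (0 : ℤ) ≤ (p.1.1 : ℤ) ^ k := by positivity
      have c2 : (0 : ℤ) ≤ (p.1.2 : ℤ) ^ k := by positivity
      have c3 : (0 : ℤ) ≤ (p.2.1 : ℤ) ^ k := by positivity
      have c4 : (0 : ℤ) ≤ (p.2.2 : ℤ) ^ k := by positivity
      have h5 : |lm k p| ≤ 2 * (N : ℤ) ^ k := by
        unfold lm
        rw [abs_le]
        constructor <;> linarith
      have h6 : ((lm k p).natAbs : ℤ) ≤ ((2 * N ^ k : ℕ) : ℤ) := by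
        rw [Int.natCast_natAbs]
        push_cast
        exact h5
      exact_mod_cast h6
  refine (Finset.sum_le_sum h2).trans ?_
  rw [Finset.sum_const, smul_eq_mul]
  apply Nat.mul_le_mul_right
  exact (Finset.card_le_card (Finset.filter_subset _ _)).trans (quad_card N)

end Pool.Agent.Helper34K9.HM
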