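import Pool.Agent.Helper34K9.HM.Meas
import Pool.Agent.Helper10K9.MWS.Cov

/-! # covering numbers and Hausdorff dimension -/

set_option autoImplicit false

open Finset MeasureTheory

namespace Pool.Agent.Helper34K9.HM

open Pool.Agent.W928.MW (e ev_pow ev_log)
open Pool.Agent.TH181.MW (S_COV_t S_DIMG_t)
open Pool.Agent.Helper10K9.MWS (smc maxc shiftc HoldsK BK bad_subK div_bd)

theorem cover8 (c : ℕ → ℂ) (hc : ∀ n, ‖c n‖ ≤ 1) (k : ℕ) (hk : 3 ≤ k) (κ : ℝ) (hκ : 3 / 4 < κ)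
    (ε' : ℝ) (hε' : 0 < ε') (j : ℤ) :
    ∃ i0 : ℕ, ∀ i : ℕ, i0 ≤ i → ∃ S : Finset ℝ,
      (S.card : ℝ) ≤ ((2 : ℝ) ^ i) ^ (k + 5 - 8 * κ + 3 * ε') ∧
      BK c k κ j i ⊆ ⋃ x ∈ S, Set.Icc x (x + ((2 : ℝ) ^ i) ^ (-(k : ℝ))) := by
  obtain ⟨C, hC0, hCD⟩ := div_bd 2 (by norm_num) k 2 ε' hε'
  set c1 : ℝ := 2 * (1 + 2 * Real.pi * 2 ^ k) with hc1
  have hc1' : 0 < c1 := by positivity
  set θ : ℝ := min ε' (4 * κ - 3) with hθ
  have hθ0 : 0 < θ := lt_min hε' (by linarith)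
  have hk0 : (0 : ℝ) < k := by
    have : 0 < k := by omega
    exact_mod_cast this
  obtain ⟨i1, h1⟩ := ev_log (θ / 8) (by positivity) 1
  obtain ⟨i2, h2⟩ := ev_pow (θ / 2) (by positivity) (12 * c1 ^ 4 * ((2 : ℝ) ^ κ) ^ 4)
  obtain ⟨i3, h3⟩ := ev_pow ε' hε' (108 * k * C * c1 ^ 8 * ((2 : ℝ) ^ κ) ^ 8)
  refine ⟨i1 + i2 + i3, fun i hi => ?_⟩
  have g1 := h1 i (by omega)
  have g2 := h2 i (by omega)
  have g3 := h3 i (by omega)
  set X : ℝ := (2 : ℝ) ^ i with hX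
  have hX1 : (1 : ℝ) ≤ X := one_le_pow₀ (by norm_num)
  have hX0 : (0 : ℝ) < X := by positivity
  have hNX : (((2 ^ i : ℕ) : ℕ) : ℝ) = X := by push_cast; rfl
  have hlog0 : 0 ≤ Real.log X := Real.log_nonneg hX1
  set lam0 : ℝ := (X / 2) ^ κ with hlam0
  have hlam0' : 0 < lam0 := by positivity
  set μ : ℝ := lam0 / c1 with hμ
  have hμ0 : 0 < μ := by positivity
  set L : ℝ := 2 * (2 + Real.log X) with hL
  have hL0 : 0 < L := by positivity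
  set δ : ℝ := X ^ (-(k : ℝ)) with hδ
  have hδ' : δ = 1 / X ^ k := by rw [hδ, Real.rpow_neg hX0.le, Real.rpow_natCast, one_div]
  have hδ0 : 0 < δ := by positivity
  have hδ1 : δ ≤ 1 := by
    rw [hδ', div_le_one (by positivity)]; exact one_le_pow₀ hX1
  set F : Set ℝ := {t : ℝ | t ∈ Set.Icc (((j - 1 : ℤ)) : ℝ) (((j + 2 : ℤ)) : ℝ) ∧
    ∃ ξ : ℝ, μ / L ≤ ‖smc c k (2 ^ i) t ξ‖} with hF
  have key2 : ∀ t ∈ BK c k κ j i, ∀ t' : ℝ, |t' - t| ≤ δ → t' ∈ F := by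
    rintro t ⟨hx1, M, ξ, hM1, hM2, hlt⟩ t' hxx
    have hxx' := abs_le.mp hxx
    refine ⟨⟨by push_cast; linarith [hx1.1, hxx'.1], by push_cast; linarith [hx1.2, hxx'.2]⟩, ?_⟩
    by_contra hcon
    push Not at hcon
    have h4 : ∀ m : ℕ, m ≤ 2 ^ i → ‖smc c k m t' ξ‖ ≤ μ / 2 := by
      intro m hm
      have h5 := maxc c k (2 ^ i) m t' (μ / L) Nat.one_le_two_pow hm (fun η => (hcon η).le) ξ
      refine h5.trans (le_of_eq ?_)
      rw [hNX, hL]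
      field_simp
    have h5 := shiftc c k (2 ^ i) M t t' ξ (μ / 2) Nat.one_le_two_pow hM1 (by positivity)
      (by rw [hNX, ← hδ', abs_sub_comm]; exact hxx) h4
    have h6 : X / 2 ≤ (M : ℝ) := by
      have : ((2 ^ i : ℕ) : ℝ) ≤ ((2 * M : ℕ) : ℝ) := by exact_mod_cast hM2
      rw [hNX] at this
      push_cast at this
      linarith
    have h7 : lam0 ≤ (M : ℝ) ^ κ := by
      rw [hlam0]
      exact Real.rpow_le_rpow (by positivity) h6 (by linarith)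
    have h8 : (1 + 2 * Real.pi * 2 ^ k) * (μ / 2) = lam0 / 4 := by
      rw [hμ, hc1]; field_simp; ring
    rw [h8] at h5
    linarith
  have hLp : L ≤ X ^ (θ / 8) := by
    rw [one_mul] at g1
    rw [hL]
    linarith
  have hL4 : L ^ 4 ≤ X ^ (θ / 2) := by
    calc L ^ 4 ≤ (X ^ (θ / 8)) ^ 4 := pow_le_pow_left₀ hL0.le hLp _
      _ = X ^ (θ / 2) := by
          rw [← Real.rpow_natCast, ← Real.rpow_mul hX0.le]
          congr 1
          push_cast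
          ring
  have hL8 : L ^ 8 ≤ X ^ ε' := by
    calc L ^ 8 = (L ^ 4) ^ 2 := by ring
      _ ≤ (X ^ (θ / 2)) ^ 2 := pow_le_pow_left₀ (by positivity) hL4 2
      _ = X ^ θ := by
          rw [← Real.rpow_natCast, ← Real.rpow_mul hX0.le]
          congr 1
          push_cast
          ring
      _ ≤ X ^ ε' := Real.rpow_le_rpow_of_exponent_le hX1 (min_le_left _ _)
  have e1 : ∀ s : ℕ, μ ^ s = X ^ (s * κ) / (c1 ^ s * ((2 : ℝ) ^ κ) ^ s) := by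
    intro s
    rw [hμ, div_pow, hlam0, Real.div_rpow hX0.le (by norm_num), div_pow,
      ← Real.rpow_natCast (X ^ κ) s, ← Real.rpow_mul hX0.le]
    have f1 : κ * ((s : ℕ) : ℝ) = s * κ := by ring
    rw [f1, div_div, mul_comm (((2 : ℝ) ^ κ) ^ s)]
  have hbig : 4 * (((2 ^ i : ℕ) : ℝ)) ^ 2 * (2 * (((2 ^ i : ℕ) : ℝ)) + 1) ≤ (μ / L) ^ 4 := by
    rw [hNX, div_pow, le_div_iff₀ (by positivity), e1 4, le_div_iff₀ (by positivity)]
    have b1 : 2 * X + 1 ≤ 3 * X := by linarith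
    have b2 : X ^ (θ / 2) * X ^ (θ / 2) * X ^ 3 ≤ X ^ (((4 : ℕ) : ℝ) * κ) := by
      rw [← Real.rpow_add hX0, ← Real.rpow_natCast X 3, ← Real.rpow_add hX0]
      apply Real.rpow_le_rpow_of_exponent_le hX1
      have := min_le_right ε' (4 * κ - 3)
      rw [← hθ] at this
      push_cast
      linarith
    calc 4 * X ^ 2 * (2 * X + 1) * L ^ 4 * (c1 ^ 4 * ((2 : ℝ) ^ κ) ^ 4)
        ≤ 4 * X ^ 2 * (3 * X) * X ^ (θ / 2) * (c1 ^ 4 * ((2 : ℝ) ^ κ) ^ 4) := by gcongr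
      _ = (12 * c1 ^ 4 * ((2 : ℝ) ^ κ) ^ 4) * X ^ (θ / 2) * X ^ 3 := by ring
      _ ≤ X ^ (θ / 2) * X ^ (θ / 2) * X ^ 3 := by gcongr
      _ ≤ _ := b2
  obtain ⟨D, hD1, hD2⟩ := hCD (2 ^ i) Nat.one_le_two_pow
  rw [hNX] at hD2
  have hD1' : ∀ n : ℕ, 1 ≤ n → n ≤ 2 * (2 ^ i) ^ k → n.divisors.card ≤ D := by
    intro n hn hn2
    apply hD1 n hn
    exact_mod_cast hn2
  have h5 := meas8 c hc k (2 ^ i) D hk hD1' (j - 1) (j + 2) (μ / L) (by omega) (by positivity) hbig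
  rw [hNX] at h5
  set V : ℝ := 108 * k * C * (X ^ 5 * X ^ ε' * X ^ ε') / μ ^ 8 with hV
  have h6 : volume F ≤ ENNReal.ofReal V := by
    refine h5.trans (ENNReal.ofReal_le_ofReal ?_)
    have a0 : (((j + 2 : ℤ)) : ℝ) - (((j - 1 : ℤ)) : ℝ) = 3 := by push_cast; ring
    rw [a0, div_pow]
    have b1 : (2 * X + 1) ^ 2 ≤ 9 * X ^ 2 := by nlinarith
    have b2 : 16 * k * (D : ℝ) ^ 2 * X ^ 3 ≤ 4 * k * (C * X ^ ε') * X ^ 3 := by
      have : 16 * k * (D : ℝ) ^ 2 = 4 * k * (2 * (D : ℝ)) ^ 2 := by ring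
      rw [this]
      gcongr
    rw [div_div_eq_mul_div, hV]
    apply div_le_div_of_nonneg_right _ (by positivity)
    calc (2 * X + 1) ^ 2 * (3 * (16 * k * (D : ℝ) ^ 2 * X ^ 3)) * L ^ 8
        ≤ (9 * X ^ 2) * (3 * (4 * k * (C * X ^ ε') * X ^ 3)) * X ^ ε' := by
          gcongr
      _ = _ := by ring
  obtain ⟨S, hS1, hS2⟩ := S_COV_t (BK c k κ j i) F δ V (j : ℝ) ((j : ℝ) + 1) hδ0 (by positivity)
    (fun x hx => hx.1) key2 h6
  refine ⟨S, hS1.trans ?_, hS2⟩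
  have h8 : V / δ = (108 * k * C * c1 ^ 8 * ((2 : ℝ) ^ κ) ^ 8) *
      X ^ (k + 5 - 8 * κ + 2 * ε') := by
    have e3 : X ^ ((k : ℝ) + 5 - 8 * κ + 2 * ε') =
        (X ^ 5 * X ^ ε' * X ^ ε') * X ^ k / X ^ (((8 : ℕ) : ℝ) * κ) := by
      rw [← Real.rpow_natCast X 5, ← Real.rpow_natCast X k, ← Real.rpow_add hX0, ← Real.rpow_add hX0,
        ← Real.rpow_add hX0, ← Real.rpow_sub hX0]
      congr 1
      push_cast
      ring
    rw [hV, e1 8, e3, hδ']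
    field_simp
  rw [h8]
  have h9 : X ^ ((k : ℝ) + 5 - 8 * κ + 3 * ε') = X ^ ε' * X ^ ((k : ℝ) + 5 - 8 * κ + 2 * ε') := by
    rw [← Real.rpow_add hX0]
    congr 1
    ring
  rw [h9]
  exact mul_le_mul_of_nonneg_right g3 (by positivity)

/-- the dimension of the set of `t` at which the sums are not `O(N^κ)` uniformly in `ξ` -/
theorem dim8 (c : ℕ → ℂ) (hc : ∀ n, ‖c n‖ ≤ 1) (k : ℕ) (hk : 3 ≤ k) (κ : ℝ) (hκ : 3 / 4 < κ) :
    dimH {t : ℝ | ¬ ∃ C : ℝ, HoldsK c k κ C t} ≤ ENNReal.ofReal (1 - (3 - 8 * (1 - κ)) / k) := by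
  have hk0 : (0 : ℝ) < k := by
    have : 0 < k := by omega
    exact_mod_cast this
  set A : ℝ := (k : ℝ) + 5 - 8 * κ with hA
  have hsub : {t : ℝ | ¬ ∃ C : ℝ, HoldsK c k κ C t} ⊆
      ⋃ j : ℤ, {x : ℝ | ∀ i1 : ℕ, ∃ i : ℕ, i1 ≤ i ∧ x ∈ BK c k κ j i} := by
    intro x hx
    rw [Set.mem_iUnion]
    exact ⟨⌊x⌋, bad_subK c hc k κ (by linarith) x hx⟩
  have hAk : A / k = 1 - (3 - 8 * (1 - κ)) / k := by
    rw [hA]; field_simp; ring
  rw [← hAk]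
  have hfin : ENNReal.ofReal (max (A / k) 0) ≤ ENNReal.ofReal (A / k) := by
    rw [ENNReal.ofReal_max, ENNReal.ofReal_zero, max_eq_left zero_le]
  refine le_trans ?_ hfin
  refine (dimH_mono hsub).trans ?_
  rw [dimH_iUnion]
  apply iSup_le
  intro j
  apply ENNReal.le_of_forall_pos_le_add
  intro ρ hρ _
  have hρ' : (0 : ℝ) < (ρ : ℝ) := by exact_mod_cast hρ
  set D : ℝ := max (A / k) 0 + ρ with hD
  have hD0 : 0 < D := by
    have := le_max_right (A / k) 0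
    rw [hD]; linarith
  set ε' : ℝ := ρ * k / 6 with hε'def
  have hε' : 0 < ε' := by positivity
  have h1 := S_DIMG_t (A + 3 * ε') k D (BK c k κ j) hk0 hD0
    (by
      have h2 := le_max_left (A / k) 0
      have h3 : A ≤ k * max (A / k) 0 := by
        calc A = k * (A / k) := by field_simp
          _ ≤ _ := mul_le_mul_of_nonneg_left h2 hk0.le
      have h4 : (0 : ℝ) < k * ρ := by positivity
      rw [hε'def, hD]
      nlinarith)
    (cover8 c hc k hk κ hκ ε' hε' j)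
  refine h1.trans (le_of_eq ?_)
  rw [hD, ENNReal.ofReal_add (le_max_right _ _) hρ'.le, ENNReal.ofReal_coe_nnreal]

/-- Frostman measures: summability of the measures of the bad sets -/
theorem frost (μ : Measure ℝ) (s B : ℝ) (hB : 0 ≤ B)
    (hμ : ∀ x r : ℝ, 0 < r → r ≤ 1 → μ (Set.Icc x (x + r)) ≤ ENNReal.ofReal (B * r ^ s))
    (c : ℕ → ℂ) (hc : ∀ n, ‖c n‖ ≤ 1) (k : ℕ) (hk : 3 ≤ k) (κ : ℝ) (hκ : 3 / 4 < κ)
    (hκ2 : (k : ℝ) * (1 - s) + 5 < 8 * κ) :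
    ∀ᵐ t ∂μ, ∃ C : ℝ, HoldsK c k κ C t := by
  have hmain : ∀ j : ℤ, μ {x : ℝ | ∀ i1 : ℕ, ∃ i : ℕ, i1 ≤ i ∧ x ∈ BK c k κ j i} = 0 := by
    intro j
    set δ : ℝ := (8 * κ - (k * (1 - s) + 5)) / 6 with hδ
    have hδ0 : 0 < δ := by rw [hδ]; linarith
    obtain ⟨i0, h0⟩ := cover8 c hc k hk κ hκ δ hδ0 j
    have hb : ∀ i : ℕ, i0 ≤ i → μ (BK c k κ j i) ≤ ENNReal.ofReal (B * ((2 : ℝ) ^ (-δ)) ^ i) := by
      intro i hi
      obtain ⟨S, hS1, hS2⟩ := h0 i hi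
      set X : ℝ := (2 : ℝ) ^ i with hX
      have hX1 : (1 : ℝ) ≤ X := one_le_pow₀ (by norm_num)
      have hX0 : (0 : ℝ) < X := by positivity
      have hr0 : 0 < X ^ (-(k : ℝ)) := by positivity
      have hr1 : X ^ (-(k : ℝ)) ≤ 1 := by
        apply Real.rpow_le_one_of_one_le_of_nonpos hX1
        have : (0 : ℝ) ≤ k := by positivity
        linarith
      refine (measure_mono hS2).trans ((measure_biUnion_finset_le _ _).trans ?_)
      refine (Finset.sum_le_sum (fun x _ => hμ x _ hr0 hr1)).trans ?_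
      rw [Finset.sum_const, nsmul_eq_mul, ← ENNReal.ofReal_natCast, ← ENNReal.ofReal_mul (by positivity)]
      apply ENNReal.ofReal_le_ofReal
      have e1 : ((2 : ℝ) ^ (-δ)) ^ i = X ^ (-δ) := by
        rw [hX, ← Real.rpow_natCast, ← Real.rpow_natCast, ← Real.rpow_mul (by norm_num), ← Real.rpow_mul (by norm_num)]
        congr 1
        ring
      rw [e1]
      calc (S.card : ℝ) * (B * (X ^ (-(k : ℝ))) ^ s) ≤ X ^ (k + 5 - 8 * κ + 3 * δ) * (B * (X ^ (-(k : ℝ))) ^ s) :=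
            mul_le_mul_of_nonneg_right hS1 (by positivity)
        _ = B * (X ^ (k + 5 - 8 * κ + 3 * δ) * X ^ (-(k : ℝ) * s)) := by
            rw [← Real.rpow_mul hX0.le]; ring
        _ = B * X ^ ((k + 5 - 8 * κ + 3 * δ) + (-(k : ℝ) * s)) := by
            rw [Real.rpow_add hX0 ((k : ℝ) + 5 - 8 * κ + 3 * δ) (-(k : ℝ) * s)]
        _ ≤ B * X ^ (-δ) := by
            apply mul_le_mul_of_nonneg_left _ hB
            apply Real.rpow_le_rpow_of_exponent_le hX1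
            rw [hδ]
            nlinarith
    have hr0 : (0 : ℝ) < (2 : ℝ) ^ (-δ) := by positivity
    have hr1 : (2 : ℝ) ^ (-δ) < 1 := Real.rpow_lt_one_of_one_lt_of_neg (by norm_num) (by linarith)
    have hsum : Summable (fun i : ℕ => B * ((2 : ℝ) ^ (-δ)) ^ (i + i0)) :=
      ((summable_nat_add_iff i0).mpr (summable_geometric_of_lt_one hr0.le hr1)).mul_left B
    have hfin : ∑' i : ℕ, μ (BK c k κ j (i + i0)) ≠ ⊤ := by
      refine ne_top_of_le_ne_top hsum.tsum_ofReal_ne_top ?_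
      exact ENNReal.tsum_le_tsum (fun i => hb (i + i0) (by omega))
    have h1 := ae_eventually_notMem hfin
    rw [ae_iff] at h1
    refine measure_mono_null ?_ h1
    intro x hx
    change ¬ ∀ᶠ n in Filter.atTop, x ∉ BK c k κ j (n + i0)
    intro hev
    rw [Filter.eventually_atTop] at hev
    obtain ⟨n0, hn0⟩ := hev
    obtain ⟨i, hi, hxi⟩ := hx (n0 + i0)
    have := hn0 (i - i0) (by omega)
    rw [Nat.sub_add_cancel (by omega)] at this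
    exact this hxi
  rw [ae_iff]
  have hsub : {t : ℝ | ¬ ∃ C : ℝ, HoldsK c k κ C t} ⊆
      ⋃ j : ℤ, {x : ℝ | ∀ i1 : ℕ, ∃ i : ℕ, i1 ≤ i ∧ x ∈ BK c k κ j i} := by
    intro x hx
    rw [Set.mem_iUnion]
    exact ⟨⌊x⌋, bad_subK c hc k κ (by linarith) x hx⟩
  refine measure_mono_null hsub ?_
  rw [measure_iUnion_null_iff]
  exact hmain

end Pool.Agent.Helper34K9.HM
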