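import Pool.Agent.Helper34K9.HM.Cnt
import Pool.Agent.Helper34K9.FD.Mom

/-! # level sets of the maximal function, diagonal removed -/

set_option autoImplicit false

open Finset MeasureTheory

namespace Pool.Agent.Helper34K9.HM

open Pool.Agent.W928.MW (e e_add e_norm e_cont prs)
open Pool.Agent.Helper10K9.MWS (smc smc_le parseval_le)
open Pool.Agent.Helper34K9.FD (lam pq QF sup4)

/-- coefficient of a quadruple -/
noncomputable def cf (c : ℕ → ℂ) (p : (ℕ × ℕ) × (ℕ × ℕ)) : ℂ :=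
  (c p.1.1 * c p.1.2) * (starRingEnd ℂ) (c p.2.1 * c p.2.2)

theorem cf_le (c : ℕ → ℂ) (hc : ∀ n, ‖c n‖ ≤ 1) (p : (ℕ × ℕ) × (ℕ × ℕ)) : ‖cf c p‖ ≤ 1 := by
  unfold cf
  rw [norm_mul, Complex.norm_conj, norm_mul, norm_mul]
  exact mul_le_one₀ (mul_le_one₀ (hc _) (norm_nonneg _) (hc _)) (by positivity)
    (mul_le_one₀ (hc _) (norm_nonneg _) (hc _))

theorem QF_eq (c : ℕ → ℂ) (k N : ℕ) (t : ℝ) :
    ((QF c k N t : ℝ) : ℂ) = ∑ p ∈ Quad N, e (t * (lm k p : ℝ)) * cf c p := by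
  have h1 : ∀ m : ℕ, ((‖pq c k N m t‖ ^ 2 : ℝ) : ℂ) = ∑ z ∈ prs N m, ∑ w ∈ prs N m,
      e (t * (lm k (z, w) : ℝ)) * cf c (z, w) := by
    intro m
    have h2 : ((‖pq c k N m t‖ ^ 2 : ℝ) : ℂ) = pq c k N m t * (starRingEnd ℂ) (pq c k N m t) := by
      rw [Complex.mul_conj, Complex.normSq_eq_norm_sq]
    rw [h2]
    unfold Pool.Agent.Helper34K9.FD.pq
    rw [map_sum, Finset.sum_mul_sum]
    apply Finset.sum_congr rfl
    intro z _
    apply Finset.sum_congr rfl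
    intro w _
    rw [map_mul, Pool.Agent.TH181.MX.e_conj]
    have : e (t * (lm k (z, w) : ℝ)) = e (t * (lam k z : ℝ)) * e (-(t * (lam k w : ℝ))) := by
      rw [← e_add]; congr 1
      unfold lm Pool.Agent.Helper34K9.FD.lam
      push_cast; ring
    rw [this]
    unfold cf
    ring
  unfold Pool.Agent.Helper34K9.FD.QF
  push_cast
  have h3 : ∀ m : ℕ, ((‖pq c k N m t‖ : ℝ) : ℂ) ^ 2 = ∑ z ∈ prs N m, ∑ w ∈ prs N m,
      e (t * (lm k (z, w) : ℝ)) * cf c (z, w) := by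
    intro m
    rw [← h1 m]
    push_cast
    rfl
  rw [Finset.sum_congr rfl (fun m _ => h3 m)]
  have h4 : ∑ m ∈ range (2 * N + 1), ∑ z ∈ prs N m, ∑ w ∈ prs N m, e (t * (lm k (z, w) : ℝ)) * cf c (z, w) =
      ∑ z ∈ (Icc 1 N) ×ˢ (Icc 1 N), ∑ w ∈ prs N (z.1 + z.2), e (t * (lm k (z, w) : ℝ)) * cf c (z, w) := by
    rw [← Finset.sum_fiberwise_of_maps_to (s := (Icc 1 N) ×ˢ (Icc 1 N)) (t := range (2 * N + 1))
      (g := fun z : ℕ × ℕ => z.1 + z.2)]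
    · apply Finset.sum_congr rfl
      intro m _
      apply Finset.sum_congr rfl
      intro z hz
      unfold Pool.Agent.W928.MW.prs at hz
      rw [Finset.mem_filter] at hz
      rw [hz.2]
    · intro z hz
      rw [Finset.mem_product, Finset.mem_Icc, Finset.mem_Icc] at hz
      rw [Finset.mem_range]
      omega
  rw [h4]
  unfold Quad
  rw [Finset.sum_filter, Finset.sum_product (s := (Icc 1 N) ×ˢ (Icc 1 N)) (t := (Icc 1 N) ×ˢ (Icc 1 N))]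
  apply Finset.sum_congr rfl
  intro z _
  unfold Pool.Agent.W928.MW.prs
  rw [Finset.sum_filter]
  apply Finset.sum_congr rfl
  intro w _
  by_cases h : w.1 + w.2 = z.1 + z.2
  · rw [if_pos h, if_pos h.symm]
  · rw [if_neg h, if_neg (fun h' => h h'.symm)]

/-- the part of `QF` off the diagonal -/
noncomputable def off (c : ℕ → ℂ) (k N : ℕ) (t : ℝ) : ℂ :=
  ∑ p ∈ (Quad N).filter (fun p => lm k p ≠ 0), e (t * (lm k p : ℝ)) * cf c p

theorem off_cont (c : ℕ → ℂ) (k N : ℕ) : Continuous (off c k N) := by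
  unfold off
  refine continuous_finsetSum _ (fun z _ => ?_)
  exact (e_cont.comp (by fun_prop)).mul continuous_const

theorem diag_card (k N : ℕ) (hk : 2 ≤ k) : ((Quad N).filter (fun p => lm k p = 0)).card ≤ 2 * N ^ 2 := by
  classical
  have hsub : (Quad N).filter (fun p => lm k p = 0) ⊆
      (((Icc 1 N) ×ˢ (Icc 1 N)).image (fun z : ℕ × ℕ => (z, z))) ∪
      (((Icc 1 N) ×ˢ (Icc 1 N)).image (fun z : ℕ × ℕ => (z, (z.2, z.1)))) := by
    intro p hp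
    rw [Finset.mem_filter] at hp
    obtain ⟨hp1, hp2⟩ := hp
    unfold Quad at hp1
    rw [Finset.mem_filter, Finset.mem_product] at hp1
    obtain ⟨⟨hz, hw⟩, hs⟩ := hp1
    have hz' := hz
    rw [Finset.mem_product, Finset.mem_Icc, Finset.mem_Icc] at hz'
    rw [Finset.mem_union, Finset.mem_image, Finset.mem_image]
    by_cases c1 : p.2.1 = p.1.1
    · left
      refine ⟨p.1, hz, ?_⟩
      ext
      · rfl
      · rfl
      · exact c1.symm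
      · change p.1.2 = p.2.2
        omega
    by_cases c3 : p.2.2 = p.1.1
    · right
      refine ⟨p.1, hz, ?_⟩
      ext
      · rfl
      · rfl
      · change p.1.2 = p.2.1
        omega
      · exact c3.symm
    exfalso
    have hdio := Pool.Agent.W225.MWD.t k p.1.1 p.1.2 p.2.1 p.2.2 hk hs
    have hx1 : (1 : ℝ) ≤ (p.1.1 : ℝ) := by exact_mod_cast hz'.1.1
    have hx0 : (0 : ℝ) < (p.1.1 : ℝ) := by linarith
    have hM0 : (0 : ℝ) < max (max (p.1.1 : ℝ) (p.1.2 : ℝ)) (max (p.2.1 : ℝ) (p.2.2 : ℝ)) :=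
      lt_of_lt_of_le hx0 ((le_max_left _ _).trans (le_max_left _ _))
    have a1 : 0 < |(p.1.1 : ℝ) - (p.2.1 : ℝ)| := by
      rw [abs_pos, sub_ne_zero]
      intro h
      exact c1 (by exact_mod_cast h.symm)
    have a2 : 0 < |(p.1.1 : ℝ) - (p.2.2 : ℝ)| := by
      rw [abs_pos, sub_ne_zero]
      intro h
      exact c3 (by exact_mod_cast h.symm)
    have a3 : (p.1.1 : ℝ) ^ k + (p.1.2 : ℝ) ^ k - (p.2.1 : ℝ) ^ k - (p.2.2 : ℝ) ^ k = 0 := by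
      have : ((lm k p : ℤ) : ℝ) = 0 := by rw [hp2]; simp
      unfold lm at this
      push_cast at this
      exact this
    rw [a3, abs_zero] at hdio
    have a4 : 0 < |(p.1.1 : ℝ) - (p.2.1 : ℝ)| * |(p.1.1 : ℝ) - (p.2.2 : ℝ)| *
      max (max (p.1.1 : ℝ) (p.1.2 : ℝ)) (max (p.2.1 : ℝ) (p.2.2 : ℝ)) ^ (k - 2) := by positivity
    linarith
  refine (Finset.card_le_card hsub).trans ((Finset.card_union_le _ _).trans ?_)
  have h1 := Finset.card_image_le (s := (Icc 1 N) ×ˢ (Icc 1 N)) (f := fun z : ℕ × ℕ => (z, z))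
  have h2 := Finset.card_image_le (s := (Icc 1 N) ×ˢ (Icc 1 N)) (f := fun z : ℕ × ℕ => (z, (z.2, z.1)))
  rw [Finset.card_product, Nat.card_Icc, Nat.add_sub_cancel] at h1 h2
  nlinarith

theorem QF_le (c : ℕ → ℂ) (hc : ∀ n, ‖c n‖ ≤ 1) (k N : ℕ) (hk : 2 ≤ k) (t : ℝ) :
    QF c k N t ≤ 2 * (N : ℝ) ^ 2 + ‖off c k N t‖ := by
  have h0 := Pool.Agent.Helper34K9.FD.QF_nonneg c k N t
  have h1 : QF c k N t = ‖((QF c k N t : ℝ) : ℂ)‖ := by
    rw [Complex.norm_real, Real.norm_of_nonneg h0]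
  rw [h1, QF_eq, ← Finset.sum_filter_add_sum_filter_not (Quad N) (fun p => lm k p = 0)]
  refine (norm_add_le _ _).trans ?_
  apply add_le_add _ (le_refl _)
  refine (norm_sum_le _ _).trans ?_
  have h2 : ∑ p ∈ (Quad N).filter (fun p => lm k p = 0), ‖e (t * (lm k p : ℝ)) * cf c p‖ ≤
      ∑ _p ∈ (Quad N).filter (fun p => lm k p = 0), (1 : ℝ) := by
    apply Finset.sum_le_sum
    intro p _
    rw [norm_mul, e_norm, one_mul]
    exact cf_le c hc p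
  refine h2.trans ?_
  rw [Finset.sum_const, nsmul_eq_mul, mul_one]
  exact_mod_cast diag_card k N hk

theorem int_off (c : ℕ → ℂ) (hc : ∀ n, ‖c n‖ ≤ 1) (k N D : ℕ) (hk : 3 ≤ k)
    (hD : ∀ n : ℕ, 1 ≤ n → n ≤ 2 * N ^ k → n.divisors.card ≤ D) (u v : ℤ) (huv : u ≤ v) :
    ∫ t in (u : ℝ)..(v : ℝ), ‖off c k N t‖ ^ 2 ≤ ((v : ℝ) - u) * (4 * k * (D : ℝ) ^ 2 * (N : ℝ) ^ 3) := by
  have h1 := parseval_le ((Quad N).filter (fun p => lm k p ≠ 0)) (fun p => lm k p) (cf c) (cf_le c hc) u v huv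
  refine h1.trans ?_
  have h2 : (((((Quad N).filter (fun p => lm k p ≠ 0)) ×ˢ ((Quad N).filter (fun p => lm k p ≠ 0))).filter
      (fun z => lm k z.1 - lm k z.2 = 0)).card : ℝ) ≤ ((N ^ 3 * (k * (2 * D) ^ 2) : ℕ) : ℝ) := by
    exact_mod_cast pairs k N D hk hD
  have h3 : ((N ^ 3 * (k * (2 * D) ^ 2) : ℕ) : ℝ) = 4 * k * (D : ℝ) ^ 2 * (N : ℝ) ^ 3 := by push_cast; ring
  rw [h3] at h2
  have huv' : (0 : ℝ) ≤ (v : ℝ) - u := by
    have : (u : ℝ) ≤ (v : ℝ) := by exact_mod_cast huv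
    linarith
  exact mul_le_mul_of_nonneg_left h2 huv'

theorem meas8 (c : ℕ → ℂ) (hc : ∀ n, ‖c n‖ ≤ 1) (k N D : ℕ) (hk : 3 ≤ k)
    (hD : ∀ n : ℕ, 1 ≤ n → n ≤ 2 * N ^ k → n.divisors.card ≤ D) (u v : ℤ) (lm0 : ℝ) (huv : u ≤ v) (hl : 0 < lm0)
    (hbig : 4 * (N : ℝ) ^ 2 * (2 * (N : ℝ) + 1) ≤ lm0 ^ 4) :
    volume {t : ℝ | t ∈ Set.Icc (u : ℝ) (v : ℝ) ∧ ∃ ξ : ℝ, lm0 ≤ ‖smc c k N t ξ‖} ≤
      ENNReal.ofReal ((2 * (N : ℝ) + 1) ^ 2 * (((v : ℝ) - u) * (16 * k * (D : ℝ) ^ 2 * (N : ℝ) ^ 3)) / lm0 ^ 8) := by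
  set ρ : ℝ := lm0 ^ 8 / (4 * (2 * (N : ℝ) + 1) ^ 2) with hρ
  have huv' : (u : ℝ) ≤ (v : ℝ) := by exact_mod_cast huv
  have hN0 : (0 : ℝ) < 2 * (N : ℝ) + 1 := by positivity
  have hρ0 : 0 < ρ := by positivity
  have hsub : {t : ℝ | t ∈ Set.Icc (u : ℝ) (v : ℝ) ∧ ∃ ξ : ℝ, lm0 ≤ ‖smc c k N t ξ‖} ⊆
      {t : ℝ | ρ ≤ ‖off c k N t‖ ^ 2} ∩ Set.Icc (u : ℝ) (v : ℝ) := by
    rintro t ⟨ht, ξ, hξ⟩
    refine ⟨?_, ht⟩
    have h1 := sup4 c k N t ξ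
    have h2 : lm0 ^ 4 ≤ ‖smc c k N t ξ‖ ^ 4 := pow_le_pow_left₀ hl.le hξ 4
    have h3 := QF_le c hc k N (by omega) t
    have h4 : (2 * (N : ℝ) + 1) * QF c k N t ≤ (2 * (N : ℝ) + 1) * (2 * (N : ℝ) ^ 2 + ‖off c k N t‖) :=
      mul_le_mul_of_nonneg_left h3 hN0.le
    have h5 : lm0 ^ 4 ≤ 2 * ((2 * (N : ℝ) + 1) * ‖off c k N t‖) := by nlinarith
    change ρ ≤ ‖off c k N t‖ ^ 2
    rw [hρ, div_le_iff₀ (by positivity)]
    have h6 : 0 ≤ ‖off c k N t‖ := norm_nonneg _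
    have h7 : (lm0 ^ 4) ^ 2 ≤ (2 * ((2 * (N : ℝ) + 1) * ‖off c k N t‖)) ^ 2 :=
      pow_le_pow_left₀ (by positivity) h5 2
    calc lm0 ^ 8 = (lm0 ^ 4) ^ 2 := by ring
      _ ≤ (2 * ((2 * (N : ℝ) + 1) * ‖off c k N t‖)) ^ 2 := h7
      _ = _ := by ring
  have hcont : Continuous (fun t => ‖off c k N t‖ ^ 2) := ((off_cont c k N).norm).pow 2
  have hmeas : MeasurableSet {t : ℝ | ρ ≤ ‖off c k N t‖ ^ 2} :=
    (isClosed_le continuous_const hcont).measurableSet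
  have hint : Integrable (fun t => ‖off c k N t‖ ^ 2) (volume.restrict (Set.Icc (u : ℝ) (v : ℝ))) :=
    (hcont.continuousOn).integrableOn_Icc
  have h3 := mul_meas_ge_le_integral_of_nonneg (μ := volume.restrict (Set.Icc (u : ℝ) (v : ℝ)))
    (f := fun t => ‖off c k N t‖ ^ 2) (Filter.Eventually.of_forall (fun t => by positivity)) hint ρ
  have h4 : ∫ x, ‖off c k N x‖ ^ 2 ∂(volume.restrict (Set.Icc (u : ℝ) (v : ℝ))) =
      ∫ t in (u : ℝ)..(v : ℝ), ‖off c k N t‖ ^ 2 := by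
    rw [intervalIntegral.integral_of_le huv', integral_Icc_eq_integral_Ioc]
  rw [h4] at h3
  have h3' := h3.trans (int_off c hc k N D hk hD u v huv)
  have h5 : (volume.restrict (Set.Icc (u : ℝ) (v : ℝ))).real {t : ℝ | ρ ≤ ‖off c k N t‖ ^ 2} =
      (volume ({t : ℝ | ρ ≤ ‖off c k N t‖ ^ 2} ∩ Set.Icc (u : ℝ) (v : ℝ))).toReal := by
    unfold Measure.real
    rw [Measure.restrict_apply hmeas]
  rw [h5] at h3'
  have hfin : volume ({t : ℝ | ρ ≤ ‖off c k N t‖ ^ 2} ∩ Set.Icc (u : ℝ) (v : ℝ)) ≠ ⊤ := by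
    refine ne_top_of_le_ne_top ?_ (measure_mono Set.inter_subset_right)
    rw [Real.volume_Icc]
    exact ENNReal.ofReal_ne_top
  refine (measure_mono hsub).trans ?_
  rw [← ENNReal.ofReal_toReal hfin]
  apply ENNReal.ofReal_le_ofReal
  have h6 : (volume ({t : ℝ | ρ ≤ ‖off c k N t‖ ^ 2} ∩ Set.Icc (u : ℝ) (v : ℝ))).toReal ≤
      (((v : ℝ) - u) * (4 * k * (D : ℝ) ^ 2 * (N : ℝ) ^ 3)) / ρ := by
    rw [le_div_iff₀ hρ0, mul_comm]
    exact h3'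
  refine h6.trans (le_of_eq ?_)
  rw [hρ]
  field_simp
  ring

end Pool.Agent.Helper34K9.HM
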